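import Mathlib
import Pool.Agent.CpTheory.AnalyticFamily
import Pool.Agent.CpTheory.Monolithic

set_option autoImplicit false

open Topology Filter Set

namespace Pool.Agent.Results.MP_ba5606_gt.BorelFunctions

universe u v

/-- `C_p(X)`: the continuous real functions on `X` with the topology of pointwise convergence. -/
abbrev Cp (X : Type u) [TopologicalSpace X] : Type u := {f : X → ℝ // Continuous f}

/-- The point-separation step: a countable subfamily that is pointwise dense in a separating
family separates points, so a compact space with such a family is second countable. -/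
lemma secondCountable_of_dense {X : Type u} [TopologicalSpace X] [CompactSpace X] [T2Space X]
    {P : Type v} (A : Set X) (e : P → X → ℝ) (he : ∀ p, Continuous (e p)) {D : Set P}
    (hD : D.Countable)
    (hdense : ∀ (p : P) (S : Finset X), (∀ s ∈ S, s ∈ closure A) →
      ∀ ε > 0, ∃ d ∈ D, ∀ s ∈ S, |e d s - e p s| < ε)
    (hsep : ∀ x ∈ closure A, ∀ y ∈ closure A, x ≠ y → ∃ p, e p x ≠ e p y) :
    SecondCountableTopology (closure A) := by
  classical
  have : CompactSpace (closure A) := isCompact_iff_compactSpace.mp isClosed_closure.isCompact
  have : Countable D := hD.to_subtype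
  let G : closure A → D → ℝ := fun x d => e d x
  have hG : Continuous G := continuous_pi fun d => (he d).comp continuous_subtype_val
  have hinj : Function.Injective G := by
    intro x y hxy
    by_contra hne
    obtain ⟨p, hp⟩ := hsep x x.2 y y.2 (fun h => hne (Subtype.ext h))
    have hpos : 0 < |e p x - e p y| / 2 := by
      have := abs_pos.mpr (sub_ne_zero.mpr hp)
      linarith
    obtain ⟨d, hd, hdS⟩ := hdense p {(x : X), (y : X)} (by
      intro s hs
      simp only [Finset.mem_insert, Finset.mem_singleton] at hs
      rcases hs with rfl | rfl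
      · exact x.2
      · exact y.2) _ hpos
    have h1 := hdS x (by simp)
    have h2 := hdS y (by simp)
    have h3 : e d x = e d y := congrFun hxy ⟨d, hd⟩
    have h4 : |e p x - e p y| ≤ |e d x - e p x| + |e d y - e p y| := by
      rw [h3]
      calc |e p x - e p y| = |(e d y - e p y) - (e d y - e p x)| := by ring_nf
        _ ≤ |e d y - e p y| + |e d y - e p x| := abs_sub _ _
        _ = _ := by ring
    linarith
  exact (hG.isClosedEmbedding hinj).isEmbedding.secondCountableTopology

/-- **Theorem.**  Let `X` be compact Hausdorff with `C_p(C_p(X))` Lindelöf, `P` a Polish space and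
`e p`, `p : P`, continuous real functions on `X`.

(1) Let `A` be a countable subset of `X` such that `p ↦ e p a` is Borel for every `a ∈ A`.  Then
countably many of the `e p` are dense in all of them for pointwise convergence on the closure of
`A`, and if the `e p` separate the points of the closure of `A` then it is second countable.

(2) If `p ↦ e p x` is Borel for every `x ∈ X` and the `e p` separate the points of `X`, i.e. if `X`
is homeomorphic to a compact set of Borel functions on `P` with the topology of pointwise
convergence, then the closure of every countable subset of `X` is second countable and `C_p(X)` is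
Lindelöf. -/
theorem result (X : Type u) [TopologicalSpace X] [CompactSpace X] [T2Space X]
    (hL : LindelofSpace (Cp (Cp X)))
    (P : Type v) [TopologicalSpace P] [PolishSpace P] [MeasurableSpace P] [BorelSpace P]
    (e : P → X → ℝ) (he : ∀ p, Continuous (e p)) :
    (∀ A : Set X, A.Countable → (∀ a ∈ A, Measurable fun p => e p a) →
      (∃ D : Set P, D.Countable ∧ ∀ (p : P) (S : Finset X), (∀ s ∈ S, s ∈ closure A) →
        ∀ ε > 0, ∃ d ∈ D, ∀ s ∈ S, |e d s - e p s| < ε) ∧
      ((∀ x ∈ closure A, ∀ y ∈ closure A, x ≠ y → ∃ p, e p x ≠ e p y) →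
        SecondCountableTopology (closure A))) ∧
    ((∀ x, Measurable fun p => e p x) → (∀ x y, x ≠ y → ∃ p, e p x ≠ e p y) →
      (∀ A : Set X, A.Countable → SecondCountableTopology (closure A)) ∧
      LindelofSpace (Cp X)) := by
  classical
  have key : ∀ A : Set X, A.Countable → (∀ a ∈ A, Measurable fun p => e p a) →
      ∃ D : Set P, D.Countable ∧ ∀ (p : P) (S : Finset X), (∀ s ∈ S, s ∈ closure A) →
      ∀ ε > 0, ∃ d ∈ D, ∀ s ∈ S, |e d s - e p s| < ε := by
    intro A hA hm
    rcases A.eq_empty_or_nonempty with rfl | hne
    · rcases isEmpty_or_nonempty P with hP | ⟨⟨p0⟩⟩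
      · exact ⟨∅, countable_empty, fun p => (hP.false p).elim⟩
      · refine ⟨{p0}, countable_singleton p0, fun p S hS ε hε => ⟨p0, rfl, fun s hs => ?_⟩⟩
        have := hS s hs
        simp at this
    · obtain ⟨a, rfl⟩ := hA.exists_eq_range hne
      have : Nonempty X := ⟨a 0⟩
      let Φ : P → ℕ → ℝ := fun p n => e p (a n)
      have hΦ : Measurable Φ := measurable_pi_iff.mpr fun n => hm (a n) ⟨n, rfl⟩
      have han : MeasureTheory.AnalyticSet (range Φ) := by
        rw [← image_univ]
        exact MeasurableSet.univ.analyticSet_image hΦ
      rw [MeasureTheory.AnalyticSet] at han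
      rcases han with hem | ⟨f, hf, hfr⟩
      · have hP : IsEmpty P := by
          rw [range_eq_empty_iff] at hem
          exact hem
        exact ⟨∅, countable_empty, fun p => (hP.false p).elim⟩
      · have hex : ∀ m : ℕ → ℕ, ∃ p, Φ p = f m := fun m => by
          have : f m ∈ range Φ := hfr ▸ mem_range_self m
          exact this
        choose pm hpm using hex
        obtain ⟨C, hC, hCd⟩ := CpAnalytic.family a (fun m => (⟨e (pm m), he _⟩ : Cp X)) (by
          have : (fun m => fun n : ℕ => e (pm m) (a n)) = f := funext fun m => hpm m
          exact this ▸ hf)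
        refine ⟨pm '' C, hC.image _, fun p S hS ε hε => ?_⟩
        obtain ⟨m, hm'⟩ : Φ p ∈ range f := hfr ▸ mem_range_self p
        have hagree : ∀ x ∈ closure (range a), e p x = e (pm m) x := by
          have hcl : IsClosed {x | e p x = e (pm m) x} := isClosed_eq (he p) (he _)
          have hsub : range a ⊆ {x | e p x = e (pm m) x} := by
            rintro _ ⟨n, rfl⟩
            exact congrFun (hm'.symm.trans (hpm m).symm) n
          intro x hx
          exact (hcl.closure_subset_iff.mpr hsub) hx
        obtain ⟨c, hc, hcS⟩ := hCd m S hS ε hε
        refine ⟨pm c, ⟨c, hc, rfl⟩, fun s hs => ?_⟩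
        rw [hagree s (hS s hs)]
        exact hcS s hs
  refine ⟨fun A hA hm => ⟨key A hA hm, fun hsep => ?_⟩, fun hm hsep => ?_⟩
  · obtain ⟨D, hD, hdense⟩ := key A hA hm
    exact secondCountable_of_dense A e he hD hdense hsep
  · have hsc : ∀ A : Set X, A.Countable → SecondCountableTopology (closure A) := by
      intro A hA
      obtain ⟨D, hD, hdense⟩ := key A hA (fun a _ => hm a)
      exact secondCountable_of_dense A e he hD hdense (fun x _ y _ hxy => hsep x y hxy)
    refine ⟨hsc, CpExtent.lindelof_Cp_of_monolithic fun A hA => ?_⟩
    have := hsc A hA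
    refine ⟨TopologicalSpace.countableBasis (closure A),
      TopologicalSpace.countable_countableBasis _, fun x U hU hx => ?_⟩
    obtain ⟨B, hB, hxB, hBU⟩ := (TopologicalSpace.isBasis_countableBasis
      (closure A)).exists_subset_of_mem_open hx hU
    exact ⟨B, hB, hxB, hBU⟩

end Pool.Agent.Results.MP_ba5606_gt.BorelFunctions
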