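import Mathlib
import Pool.Agent.CpTheory.Tightness

set_option autoImplicit false

open Topology Filter Set

namespace Pool.Agent.Results.MP_ba5606_gt.CountableTightness

universe u

/-- `C_p(X)`: the continuous real functions on `X` with the topology of pointwise convergence. -/
abbrev Cp (X : Type u) [TopologicalSpace X] : Type u := {f : X → ℝ // Continuous f}

/-- The space `Y` has a countable network. -/
def HasCountableNetwork (Y : Type u) [TopologicalSpace Y] : Prop :=
  ∃ 𝒩 : Set (Set Y), 𝒩.Countable ∧
    ∀ (y : Y) (U : Set Y), IsOpen U → y ∈ U → ∃ N ∈ 𝒩, y ∈ N ∧ N ⊆ U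

/-- `X` is `ω`-monolithic: the closure of every countable set has a countable network. -/
def Monolithic (X : Type u) [TopologicalSpace X] : Prop :=
  ∀ A : Set X, A.Countable → HasCountableNetwork (closure A)

/-- `X` is a continuous image of a Valdivia compact space, i.e. of a compact set `K` in some `ℝ^Γ`
whose points of countable support are dense in `K`. -/
def ValdiviaImage (X : Type u) [TopologicalSpace X] : Prop :=
  ∃ (Γ : Type u) (K : Set (Γ → ℝ)) (f : K → X), IsCompact K ∧
    K ⊆ closure {p | p ∈ K ∧ {γ | p γ ≠ 0}.Countable} ∧ Continuous f ∧ Function.Surjective f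

/-- subspaces of spaces with a countable network -/
lemma network_mono {X : Type u} [TopologicalSpace X] {S T : Set X} (hST : S ⊆ T)
    (hT : HasCountableNetwork T) : HasCountableNetwork S := by
  obtain ⟨𝒩, h𝒩, hnet⟩ := hT
  refine ⟨(fun N => {s : S | (⟨s, hST s.2⟩ : T) ∈ N}) '' 𝒩, h𝒩.image _, ?_⟩
  intro s U hU hs
  obtain ⟨V, hV, rfl⟩ := isOpen_induced_iff.mp hU
  obtain ⟨N, hN, hsN, hNV⟩ := hnet ⟨s, hST s.2⟩ (Subtype.val ⁻¹' V)
    (hV.preimage continuous_subtype_val) hs
  exact ⟨_, ⟨N, hN, rfl⟩, hsN, fun t ht => hNV ht⟩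

/-- If the closures of the countable subsets of a dense set have countable networks and `X` has
countable tightness then `X` is `ω`-monolithic. -/
lemma monolithic_of_dense {X : Type u} [TopologicalSpace X]
    (htight : ∀ (A : Set X) (z : X), z ∈ closure A → ∃ B ⊆ A, B.Countable ∧ z ∈ closure B)
    (D : Set X) (hD : Dense D) (hnet : ∀ A ⊆ D, A.Countable → HasCountableNetwork (closure A)) :
    Monolithic X := by
  intro A hA
  have hB : ∀ z : X, ∃ B ⊆ D, B.Countable ∧ z ∈ closure B := fun z => htight D z (hD z)
  choose B hBD hBc hBz using hB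
  refine network_mono (T := closure (⋃ a ∈ A, B a)) ?_
    (hnet _ (iUnion₂_subset fun a _ => hBD a) (hA.biUnion fun a _ => hBc a))
  refine isClosed_closure.closure_subset_iff.mpr fun a ha => ?_
  exact closure_mono (subset_biUnion_of_mem (u := B) ha) (hBz a)

/-- the dense set in a continuous image of a Valdivia compact space -/
lemma dense_of_valdivia {X : Type u} [TopologicalSpace X] [T2Space X] (h : ValdiviaImage X) :
    ∃ D : Set X, Dense D ∧ ∀ A ⊆ D, A.Countable → HasCountableNetwork (closure A) := by
  classical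
  obtain ⟨Γ, K, f, hK, hdense, hf, hfs⟩ := h
  have : CompactSpace K := isCompact_iff_compactSpace.mp hK
  let D0 : Set K := {p | {γ | p.1 γ ≠ 0}.Countable}
  have hD0 : Dense D0 := by
    intro p
    rw [closure_subtype]
    have : (Subtype.val '' D0 : Set (Γ → ℝ)) = {p | p ∈ K ∧ {γ | p γ ≠ 0}.Countable} := by
      ext q
      constructor
      · rintro ⟨q, hq, rfl⟩
        exact ⟨q.2, hq⟩
      · rintro ⟨hqK, hq⟩
        exact ⟨⟨q, hqK⟩, hq, rfl⟩
    rw [this]
    exact hdense p.2
  refine ⟨f '' D0, ?_, ?_⟩
  · exact hfs.denseRange.dense_image hf hD0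
  · intro A hAD hAc
    have hex : ∀ a : X, ∃ p : K, (a ∈ A → p ∈ D0) ∧ f p = a := by
      intro a
      by_cases ha : a ∈ A
      · obtain ⟨p, hp, hpa⟩ := hAD ha
        exact ⟨p, fun _ => hp, hpa⟩
      · obtain ⟨p, hp⟩ := hfs a
        exact ⟨p, fun h => absurd h ha, hp⟩
    choose g hgD hgf using hex
    let C : Set K := g '' A
    have hCc : C.Countable := hAc.image _
    let Γ' : Set Γ := ⋃ p ∈ C, {γ | p.1 γ ≠ 0}
    have hΓ' : Γ'.Countable := hCc.biUnion (by
      rintro _ ⟨a, ha, rfl⟩
      exact hgD a ha)
    have : Countable Γ' := hΓ'.to_subtype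
    -- the closure of `C` is second countable
    have hsupp : ∀ p ∈ closure C, ∀ γ ∉ Γ', p.1 γ = 0 := by
      intro p hp γ hγ
      have hc : IsClosed {p : K | p.1 γ = 0} :=
        isClosed_eq ((continuous_apply γ).comp continuous_subtype_val) continuous_const
      have hsub : C ⊆ {p : K | p.1 γ = 0} := by
        intro q hq
        by_contra hne
        exact hγ (mem_biUnion hq hne)
      exact (hc.closure_subset_iff.mpr hsub) hp
    let r : closure C → Γ' → ℝ := fun p γ => p.1.1 γ
    have hr : Continuous r := continuous_pi fun γ =>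
      (continuous_apply (γ : Γ)).comp (continuous_subtype_val.comp continuous_subtype_val)
    have hrinj : Function.Injective r := by
      intro p q hpq
      refine Subtype.ext (Subtype.ext (funext fun γ => ?_))
      by_cases hγ : γ ∈ Γ'
      · exact congrFun hpq ⟨γ, hγ⟩
      · rw [hsupp p.1 p.2 γ hγ, hsupp q.1 q.2 γ hγ]
    have : CompactSpace (closure C) := isCompact_iff_compactSpace.mp isClosed_closure.isCompact
    have : SecondCountableTopology (closure C) :=
      (hr.isClosedEmbedding hrinj).isEmbedding.secondCountableTopology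
    -- the image of the closure of `C` contains the closure of `A`
    have hcl : closure A ⊆ f '' closure C := by
      have h1 : IsClosed (f '' closure C) := (isClosed_closure.isCompact.image hf).isClosed
      refine h1.closure_subset_iff.mpr fun a ha => ?_
      exact ⟨g a, subset_closure ⟨a, ha, rfl⟩, hgf a⟩
    refine ⟨(fun B : Set (closure C) => {y : closure A | ∃ p ∈ B, f p = y}) ''
      TopologicalSpace.countableBasis (closure C),
      (TopologicalSpace.countable_countableBasis _).image _, ?_⟩
    intro y U hU hy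
    obtain ⟨V, hV, rfl⟩ := isOpen_induced_iff.mp hU
    obtain ⟨p, hp, hpy⟩ := hcl y.2
    have hO : IsOpen {p : closure C | f p ∈ V} :=
      hV.preimage (hf.comp continuous_subtype_val)
    obtain ⟨B, hB, hpB, hBV⟩ := (TopologicalSpace.isBasis_countableBasis
      (closure C)).exists_subset_of_mem_open (a := ⟨p, hp⟩) (by
        show f p ∈ V
        rw [hpy]; exact hy) hO
    refine ⟨_, ⟨B, hB, rfl⟩, ⟨⟨p, hp⟩, hpB, hpy⟩, ?_⟩
    rintro y' ⟨q, hq, hqy⟩
    show (y' : X) ∈ V
    rw [← hqy]
    exact hBV hq

/-- Let `X` be compact Hausdorff with `C_p(C_p(X))` Lindelöf.  Then `X` has countable tightness.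
Moreover, if `X` is a continuous image of a Valdivia compact space then `X` is `ω`-monolithic and
`C_p(X)` is Lindelöf. -/
theorem result (X : Type u) [TopologicalSpace X] [CompactSpace X] [T2Space X]
    (hL : LindelofSpace (Cp (Cp X))) :
    (∀ (A : Set X) (z : X), z ∈ closure A → ∃ B ⊆ A, B.Countable ∧ z ∈ closure B) ∧
    (ValdiviaImage X → Monolithic X ∧ LindelofSpace (Cp X)) := by
  refine ⟨fun A z hz => CpExtent.tight A z hz, fun hV => ?_⟩
  obtain ⟨D, hD, hnet⟩ := dense_of_valdivia hV
  have hm : Monolithic X := monolithic_of_dense (fun A z hz => CpExtent.tight A z hz) D hD hnet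
  exact ⟨hm, CpExtent.lindelof_Cp_of_monolithic hm⟩

end Pool.Agent.Results.MP_ba5606_gt.CountableTightness
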