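import Pool.Agent.CPY.LangQ
import Pool.Agent.CPI.Main
import Pool.Agent.CPY.Main

/-! # Compact spaces `X` with `C_p(C_p(X))` Lindelof: Q2 is independent of ZFC (MP_ba5606_gt, Q2)

There is a model of `ZFC` in which every compact space `X` such that `C_p(C_p(X))` is Lindelof is `ω`-monolithic; and
there is a model of `ZFC` with a compact space `X` such that `C_p(C_p(X))` is Lindelof and `X` is not `ω`-monolithic. -/

namespace Pool.Agent.Results.MP_ba5606_gt.IndependenceQ2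

open STP CPI CPY

theorem result : (∃ (N : Type 1) (E : N → N → Prop), ZFC E ∧ PosQ2 E) ∧
    ∃ (N : Type 1) (E : N → N → Prop), ZFC E ∧ NegQ2 E := by
  constructor
  · obtain ⟨N, E, hE, R, l, hR, h⟩ := CPY.main
    exact ⟨N, E, hE, R, l, hR, fun X τ C σ D ρ h1 h2 h3 h4 h5 h6 =>
      (h X τ C σ D ρ h1 h2 h3 h4 h5 h6).2⟩
  · obtain ⟨N, E, hE, R, l, X, τ, C, σ, D, ρ, h0, h1, h2, h3, h4, h5, h6, -, h7⟩ := CPI.main
    exact ⟨N, E, hE, R, l, h0, X, τ, C, σ, D, ρ, h1, h2, h3, h4, h5, h6, h7⟩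

end Pool.Agent.Results.MP_ba5606_gt.IndependenceQ2
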